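import Pool.Agent.helper27.CHS.Spec

/-!
# Row chs:BS (MP_5628fe_nt): one block of the sieve weights
-/

set_option autoImplicit false

namespace Pool.Agent.CHS

open Finset Pool.Agent.SX

open Pool.Agent.Lib.BrunHooley (es ts es_nonneg bonferroni)

/-- Both kinds of weights: `s = 1` lower, `s = -1` upper. -/
def BS_W (s x h B v : ℝ) : Prop := ∃ c : Finset ℕ → ℝ, (∀ E, |c E| ≤ 1) ∧
  (∀ E, c E ≠ 0 → E ⊆ PB x h ∧ ∑ p ∈ E, Real.log p ≤ B) ∧
  (∀ Γ ⊆ PB x h, s * ∑ E ∈ Γ.powerset, c E ≤ s * if Γ = ∅ then 1 else 0) ∧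
  s * (V (PB x h) * (1 - s * v)) ≤ s * ∑ E ∈ (PB x h).powerset, c E * g E

theorem BS_lo (x h B v : ℝ) : BS_W 1 x h B v ↔ WLo x h B v := by
  unfold BS_W WLo
  simp only [one_mul]

theorem BS_up (x h B v : ℝ) : BS_W (-1) x h B v ↔ WUp x h B v := by
  unfold BS_W WUp
  simp only [neg_mul, one_mul, neg_le_neg_iff, sub_neg_eq_add]

/-- The combined weights. -/
noncomputable def BS_c (P Q : Finset ℕ) (K : ℕ) (c : ℕ → Finset ℕ → ℝ) (F : Finset ℕ) : ℝ :=
  if (F ∩ Q).card ≤ K then (-1) ^ (F ∩ Q).card * c (F ∩ Q).card (F ∩ P) else 0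

theorem BS_split {P Q Γ₀ Γ₁ : Finset ℕ} (hPQ : Disjoint P Q) (h0 : Γ₀ ⊆ P) (h1 : Γ₁ ⊆ Q)
    (Φ : Finset ℕ → ℝ) :
    ∑ F ∈ (Γ₀ ∪ Γ₁).powerset, Φ F = ∑ S ∈ Γ₁.powerset, ∑ E ∈ Γ₀.powerset, Φ (E ∪ S) := by
  rw [← sum_product']
  symm
  refine sum_nbij' (fun x => x.2 ∪ x.1) (fun F => (F ∩ Q, F ∩ P)) ?_ ?_ ?_ ?_ ?_
  · rintro ⟨S, E⟩ hx
    rw [mem_product, mem_powerset, mem_powerset] at hx
    rw [mem_powerset]
    exact union_subset_union hx.2 hx.1
  · intro F hF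
    rw [mem_powerset] at hF
    rw [mem_product, mem_powerset, mem_powerset]
    constructor
    · intro p hp
      rw [mem_inter] at hp
      rcases mem_union.1 (hF hp.1) with h2 | h2
      · exact absurd hp.2 (Finset.disjoint_left.1 hPQ (h0 h2))
      · exact h2
    · intro p hp
      rw [mem_inter] at hp
      rcases mem_union.1 (hF hp.1) with h2 | h2
      · exact h2
      · exact absurd (h1 h2) (Finset.disjoint_left.1 hPQ hp.2)
  · rintro ⟨S, E⟩ hx
    rw [mem_product, mem_powerset, mem_powerset] at hx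
    obtain ⟨hS, hE⟩ := hx
    have hS' : S ⊆ Q := (show S ⊆ Γ₁ from hS).trans h1
    have hE' : E ⊆ P := (show E ⊆ Γ₀ from hE).trans h0
    refine Prod.ext ?_ ?_
    · ext p
      simp only [mem_inter, mem_union]
      constructor
      · rintro ⟨h2 | h2, h3⟩
        · exact absurd h3 (Finset.disjoint_left.1 hPQ (hE' h2))
        · exact h2
      · intro h2
        exact ⟨Or.inr h2, hS' h2⟩
    · ext p
      simp only [mem_inter, mem_union]
      constructor
      · rintro ⟨h2 | h2, h3⟩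
        · exact h2
        · exact absurd (hS' h2) (Finset.disjoint_left.1 hPQ h3)
      · intro h2
        exact ⟨Or.inl h2, hE' h2⟩
  · intro F hF
    rw [mem_powerset] at hF
    ext p
    simp only [mem_inter, mem_union]
    constructor
    · rintro (h2 | h2)
      · exact h2.1
      · exact h2.1
    · intro h2
      rcases mem_union.1 (hF h2) with h3 | h3
      · exact Or.inl ⟨h2, h0 h3⟩
      · exact Or.inr ⟨h2, h1 h3⟩
  · intro x _
    rfl

theorem BS_sum {P Q Γ₀ Γ₁ : Finset ℕ} (hPQ : Disjoint P Q) (h0 : Γ₀ ⊆ P) (h1 : Γ₁ ⊆ Q)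
    (K : ℕ) (c : ℕ → Finset ℕ → ℝ) (w : ℕ → ℝ) :
    ∑ F ∈ (Γ₀ ∪ Γ₁).powerset, BS_c P Q K c F * ∏ p ∈ F, w p =
      ∑ k ∈ range (K + 1), (-1) ^ k * es Γ₁ w k * ∑ E ∈ Γ₀.powerset, c k E * ∏ p ∈ E, w p := by
  rw [BS_split hPQ h0 h1]
  have e1 : ∀ S ∈ Γ₁.powerset, ∑ E ∈ Γ₀.powerset, BS_c P Q K c (E ∪ S) * ∏ p ∈ E ∪ S, w p =
      ∑ k ∈ range (K + 1), if S.card = k then
        (-1) ^ k * (∏ p ∈ S, w p) * ∑ E ∈ Γ₀.powerset, c k E * ∏ p ∈ E, w p else 0 := by
    intro S hS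
    rw [mem_powerset] at hS
    have hS' : S ⊆ Q := hS.trans h1
    rw [sum_ite_eq (range (K + 1)) S.card]
    have e2 : ∀ E ∈ Γ₀.powerset, BS_c P Q K c (E ∪ S) * ∏ p ∈ E ∪ S, w p =
        if S.card ≤ K then (-1) ^ S.card * (∏ p ∈ S, w p) * (c S.card E * ∏ p ∈ E, w p)
          else 0 := by
      intro E hE
      rw [mem_powerset] at hE
      have hE' : E ⊆ P := hE.trans h0
      have hd : Disjoint E S := hPQ.mono hE' hS'
      have i1 : (E ∪ S) ∩ Q = S := by
        ext p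
        simp only [mem_inter, mem_union]
        constructor
        · rintro ⟨h2 | h2, h3⟩
          · exact absurd h3 (Finset.disjoint_left.1 hPQ (hE' h2))
          · exact h2
        · intro h2
          exact ⟨Or.inr h2, hS' h2⟩
      have i2 : (E ∪ S) ∩ P = E := by
        ext p
        simp only [mem_inter, mem_union]
        constructor
        · rintro ⟨h2 | h2, h3⟩
          · exact h2
          · exact absurd (hS' h2) (Finset.disjoint_left.1 hPQ h3)
        · intro h2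
          exact ⟨Or.inl h2, hE' h2⟩
      rw [BS_c, i1, i2, prod_union hd]
      split_ifs
      · ring
      · ring
    rw [sum_congr rfl e2]
    by_cases hK : S.card ≤ K
    · simp only [if_pos hK]
      rw [if_pos (mem_range.2 (Nat.lt_succ_of_le hK)), mul_sum]
    · simp only [if_neg hK]
      rw [if_neg fun h => hK (Nat.lt_succ_iff.1 (mem_range.1 h)), sum_const_zero]
  rw [sum_congr rfl e1, sum_comm]
  refine sum_congr rfl fun k _ => ?_
  rw [← sum_filter, ← powersetCard_eq_filter, ← sum_mul, ← mul_sum]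
  rfl

theorem BS_main (hPA : PA_stmt) {s : ℝ} (hs : s = 1 ∨ s = -1) {x h h' B : ℝ} {K : ℕ} {v : ℕ → ℝ}
    (hx : 2 ≤ x) (hxh : x ≤ h) (hh : h ≤ h') (hKB : K * h' ≤ B) (hKs : (-1 : ℝ) ^ K = -s)
    (hyp : ∀ k ≤ K, BS_W ((-1) ^ k * s) x h (B - k * h') (v k)) :
    BS_W s x h' B ((∑ k ∈ range (K + 1), ek (PB h h') k * v k + ek (PB h h') (K + 1)) /
      V (PB h h')) := by
  have hs2 : s * s = 1 := by rcases hs with rfl | rfl <;> norm_num
  choose! c hc1 hc2 hc3 hc4 using hyp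
  obtain ⟨hPr0, hPQ0, hV0, -⟩ := hPA.2.1 x h h' hxh hh
  obtain ⟨P, hP⟩ : ∃ P, P = PB x h := ⟨_, rfl⟩
  obtain ⟨Q, hQ⟩ : ∃ Q, Q = PB h h' := ⟨_, rfl⟩
  obtain ⟨R, hR⟩ : ∃ R, R = PB x h' := ⟨_, rfl⟩
  have hPr : R = P ∪ Q := by rw [hR, hP, hQ]; exact hPr0
  have hPQ : Disjoint P Q := by rw [hP, hQ]; exact hPQ0
  have hVQ : 0 < V Q := by rw [hQ]; exact (hPA.2.2.1 h h' (hx.trans hxh)).1
  have hVP : 0 < V P := by rw [hP]; exact (hPA.2.2.1 x h hx).1
  have hV1 : V R = V P * V Q := by rw [hR, hP, hQ]; exact hV0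
  have hQm : ∀ p ∈ Q, 0 ≤ 1 / ((p : ℝ) - 1) ∧ 1 / ((p : ℝ) - 1) ≤ 1 ∧ Real.log p ≤ h' := by
    intro p hp
    rw [hQ] at hp
    obtain ⟨-, h2, h3⟩ := (hPA.2.2.1 h h' (hx.trans hxh)).2.2.2 p hp
    exact ⟨h2.le, h3.trans (by norm_num), ((hPA.1 h h' p).1 hp).2.2.le⟩
  unfold BS_W
  rw [← hQ, ← hR]
  rw [← hP] at hc2 hc3 hc4
  have hsg : ∀ k : ℕ, (-1 : ℝ) ^ k * (-1 : ℝ) ^ k = 1 := by
    intro k
    rw [← mul_pow]
    norm_num
  refine ⟨fun F => if F ⊆ R then BS_c P Q K c F else 0, ?_, ?_, ?_, ?_⟩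
  · intro F
    show |(if F ⊆ R then BS_c P Q K c F else 0)| ≤ 1
    split_ifs with h1
    · unfold BS_c
      split_ifs with h2
      · rw [abs_mul, abs_pow, abs_neg, abs_one, one_pow, one_mul]
        exact hc1 _ h2 _
      · rw [abs_zero]
        norm_num
    · rw [abs_zero]
      norm_num
  · intro F hF
    have hF' : (if F ⊆ R then BS_c P Q K c F else 0) ≠ 0 := hF
    by_cases h1 : F ⊆ R
    · rw [if_pos h1] at hF'
      refine ⟨h1, ?_⟩
      unfold BS_c at hF'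
      by_cases h2 : (F ∩ Q).card ≤ K
      · rw [if_pos h2] at hF'
        obtain ⟨h3, h4⟩ := hc2 _ h2 _ (right_ne_zero_of_mul hF')
        have h5 : (F ∩ P) ∪ (F ∩ Q) = F := by
          rw [← inter_union_distrib_left, ← hPr]
          exact inter_eq_left.2 h1
        have h6 : Disjoint (F ∩ P) (F ∩ Q) := hPQ.mono inter_subset_right inter_subset_right
        have h7 : ∑ p ∈ F, Real.log p = (∑ p ∈ F ∩ P, Real.log p) + ∑ p ∈ F ∩ Q, Real.log p := by
          rw [← sum_union h6, h5]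
        have h8 : ∑ p ∈ F ∩ Q, Real.log p ≤ ((F ∩ Q).card : ℝ) * h' := by
          rw [← nsmul_eq_mul]
          exact sum_le_card_nsmul _ _ _ fun p hp => (hQm p (mem_inter.1 hp).2).2.2
        rw [h7]
        linarith
      · rw [if_neg h2] at hF'
        exact absurd rfl hF'
    · rw [if_neg h1] at hF'
      exact absurd rfl hF'
  · intro Γ hΓ
    have hΓ' : Γ = (Γ ∩ P) ∪ (Γ ∩ Q) := by
      rw [← inter_union_distrib_left, ← hPr]
      exact (inter_eq_left.2 hΓ).symm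
    have e1 : ∑ E ∈ Γ.powerset, (if E ⊆ R then BS_c P Q K c E else 0) =
        ∑ k ∈ range (K + 1), (-1) ^ k * es (Γ ∩ Q) (fun _ => 1) k *
          ∑ E ∈ (Γ ∩ P).powerset, c k E := by
      have e2 := BS_sum hPQ (Γ₀ := Γ ∩ P) (Γ₁ := Γ ∩ Q) inter_subset_right inter_subset_right K c
        fun _ => 1
      simp only [prod_const_one, mul_one] at e2
      rw [← e2, ← hΓ']
      exact sum_congr rfl fun E hE => if_pos ((mem_powerset.1 hE).trans hΓ)
    rw [e1, mul_sum]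
    have hes : ∀ k, 0 ≤ es (Γ ∩ Q) (fun _ => 1) k := fun k =>
      es_nonneg _ _ (fun _ _ => zero_le_one) k
    have e3 : ∀ k ∈ range (K + 1), s * ((-1) ^ k * es (Γ ∩ Q) (fun _ => 1) k *
          ∑ E ∈ (Γ ∩ P).powerset, c k E) ≤
        (if Γ ∩ P = ∅ then (1 : ℝ) else 0) * s * ((-1) ^ k * es (Γ ∩ Q) (fun _ => 1) k) := by
      intro k hk
      have hk' : k ≤ K := Nat.lt_succ_iff.1 (mem_range.1 hk)
      have h3 := mul_le_mul_of_nonneg_left (hc3 k hk' (Γ ∩ P) inter_subset_right) (hes k)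
      calc _ = es (Γ ∩ Q) (fun _ => 1) k * ((-1) ^ k * s * ∑ E ∈ (Γ ∩ P).powerset, c k E) := by
            ring
        _ ≤ _ := h3
        _ = _ := by ring
    refine (sum_le_sum e3).trans ?_
    rw [← mul_sum]
    have hb := (bonferroni (Γ ∩ Q) (fun _ => (1 : ℝ)) (fun _ _ => zero_le_one)
      (fun _ _ => le_refl _) K).1
    rw [hKs] at hb
    have hprod : ∏ p ∈ Γ ∩ Q, (1 - (1 : ℝ)) = if Γ ∩ Q = ∅ then 1 else 0 := by
      split_ifs with h1
      · rw [h1, prod_empty]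
      · obtain ⟨q, hq⟩ := nonempty_iff_ne_empty.2 h1
        exact prod_eq_zero hq (sub_self 1)
    rw [hprod] at hb
    have hts : ts (Γ ∩ Q) (fun _ => (1 : ℝ)) K =
        ∑ k ∈ range (K + 1), (-1) ^ k * es (Γ ∩ Q) (fun _ => 1) k := rfl
    rw [← hts]
    have hδ : (if Γ = ∅ then (1 : ℝ) else 0) =
        (if Γ ∩ P = ∅ then (1 : ℝ) else 0) * if Γ ∩ Q = ∅ then 1 else 0 := by
      by_cases h1 : Γ ∩ P = ∅
      · by_cases h2 : Γ ∩ Q = ∅
        · rw [if_pos h1, if_pos h2, if_pos (by rw [hΓ', h1, h2, union_empty]), one_mul]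
        · rw [if_neg h2, mul_zero, if_neg]
          intro h3
          exact h2 (by rw [h3, empty_inter])
      · rw [if_neg h1, zero_mul, if_neg]
        intro h3
        exact h1 (by rw [h3, empty_inter])
    rw [hδ]
    have hδ0 : (0 : ℝ) ≤ if Γ ∩ P = ∅ then (1 : ℝ) else 0 := by split_ifs <;> norm_num
    have h4 := mul_nonneg hδ0 hb
    linarith
  · have e1 : ∑ E ∈ R.powerset, (if E ⊆ R then BS_c P Q K c E else 0) * g E =
        ∑ k ∈ range (K + 1), (-1) ^ k * ek Q k * ∑ E ∈ P.powerset, c k E * g E := by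
      have e2 := BS_sum hPQ (Γ₀ := P) (Γ₁ := Q) (Subset.refl _) (Subset.refl _) K c
        fun p => 1 / ((p : ℝ) - 1)
      rw [← hPr] at e2
      rw [show ∑ k ∈ range (K + 1), (-1 : ℝ) ^ k * ek Q k * ∑ E ∈ P.powerset, c k E * g E =
        ∑ k ∈ range (K + 1), (-1) ^ k * es Q (fun p => 1 / ((p : ℝ) - 1)) k *
          ∑ E ∈ P.powerset, c k E * ∏ p ∈ E, 1 / ((p : ℝ) - 1) from rfl, ← e2]
      refine sum_congr rfl fun E hE => ?_
      rw [if_pos (mem_powerset.1 hE)]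
      rfl
    have e1' : ∑ E ∈ R.powerset, (fun F => if F ⊆ R then BS_c P Q K c F else 0) E *
        g E = ∑ k ∈ range (K + 1), (-1) ^ k * ek Q k * ∑ E ∈ P.powerset, c k E * g E := e1
    rw [e1', mul_sum]
    have hek : ∀ k, 0 ≤ ek Q k := fun k => es_nonneg _ _ (fun p hp => (hQm p hp).1) k
    have e3 : ∀ k ∈ range (K + 1), V P * (s * ((-1) ^ k * ek Q k) - ek Q k * v k) ≤
        s * ((-1) ^ k * ek Q k * ∑ E ∈ P.powerset, c k E * g E) := by
      intro k hk
      have hk' : k ≤ K := Nat.lt_succ_iff.1 (mem_range.1 hk)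
      have h3 := mul_le_mul_of_nonneg_left (hc4 k hk') (hek k)
      have h4 : ek Q k * ((-1) ^ k * s * (V P * (1 - (-1) ^ k * s * v k))) =
          V P * (s * ((-1) ^ k * ek Q k) - ek Q k * v k) := by
        have h5 : (-1 : ℝ) ^ k * s * ((-1) ^ k * s) = 1 := by
          calc (-1 : ℝ) ^ k * s * ((-1) ^ k * s) = ((-1) ^ k * (-1) ^ k) * (s * s) := by ring
            _ = 1 := by rw [hsg, hs2, one_mul]
        calc _ = V P * (s * ((-1) ^ k * ek Q k) -
              ek Q k * v k * ((-1) ^ k * s * ((-1) ^ k * s))) := by ring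
          _ = _ := by rw [h5, mul_one]
      rw [h4] at h3
      refine h3.trans (le_of_eq ?_)
      ring
    refine le_trans ?_ (sum_le_sum e3)
    rw [← mul_sum, sum_sub_distrib, ← mul_sum]
    have hb := (bonferroni Q (fun p => 1 / ((p : ℝ) - 1)) (fun p hp => (hQm p hp).1)
      (fun p hp => (hQm p hp).2.1) K).2
    rw [hKs] at hb
    have hts : ts Q (fun p => 1 / ((p : ℝ) - 1)) K = ∑ k ∈ range (K + 1), (-1) ^ k * ek Q k := rfl
    rw [hts] at hb
    have hb' : -s * (∑ k ∈ range (K + 1), (-1 : ℝ) ^ k * ek Q k - V Q) ≤ ek Q (K + 1) := hb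
    have h6 : s * V Q - ek Q (K + 1) - ∑ k ∈ range (K + 1), ek Q k * v k ≤
        s * ∑ k ∈ range (K + 1), (-1 : ℝ) ^ k * ek Q k - ∑ k ∈ range (K + 1), ek Q k * v k := by
      linarith
    refine le_trans (le_of_eq ?_) (mul_le_mul_of_nonneg_left h6 hVP.le)
    rw [hV1]
    have h7 : s * (V P * V Q * (1 - s * ((∑ k ∈ range (K + 1), ek Q k * v k + ek Q (K + 1)) /
        V Q))) = V P * (s * V Q - (s * s) * (∑ k ∈ range (K + 1), ek Q k * v k +
          ek Q (K + 1))) := by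
      field_simp
    rw [h7, hs2]
    ring

theorem BS (hPA : PA_stmt) : BS_stmt := by
  intro x h h' B K v hx hxh hh hKB
  constructor
  · intro hodd hyp
    rw [← BS_lo]
    refine BS_main hPA (Or.inl rfl) hx hxh hh hKB (by rw [hodd.neg_one_pow]) fun k hk => ?_
    rcases Nat.even_or_odd k with he | ho
    · rw [he.neg_one_pow, one_mul, BS_lo]
      exact (hyp k hk).1 he
    · rw [ho.neg_one_pow, mul_one, BS_up]
      exact (hyp k hk).2 ho
  · intro heven hyp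
    rw [← BS_up]
    refine BS_main hPA (Or.inr rfl) hx hxh hh hKB (by rw [heven.neg_one_pow]; norm_num)
      fun k hk => ?_
    rcases Nat.even_or_odd k with he | ho
    · rw [he.neg_one_pow, one_mul, BS_up]
      exact (hyp k hk).1 he
    · rw [ho.neg_one_pow, neg_mul_neg, one_mul, BS_lo]
      exact (hyp k hk).2 ho

end Pool.Agent.CHS
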